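import Pool.Agent.Helper72.EP.Spec2

/-!
The torso system.
-/

set_option autoImplicit false

namespace ErdPos

open Finset

section
variable {V : Type} [DecidableEq V] {E X : Type}

lemma tsys_sub {G : SimpleGraph V} {F : Finset V → Prop} {C A : Finset V} (h : Hul G F C A) :
    A ⊆ C := by
  obtain ⟨a, b, _, _, _, rfl⟩ := h
  exact Finset.filter_subset _ _

/-- mod two weight of an integer vector at an index -/
noncomputable def tsys_m (δ : X → Finset E) (g : E →₀ ℤ) (x : X) : ZMod 2 :=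
  ((∑ f ∈ δ x, g f : ℤ) : ZMod 2)

lemma tsys_sum (δ : X → Finset E) (γ : Sym2 V → E →₀ ℤ) (T : Finset (Sym2 V)) (x : X) :
    (∑ e ∈ T, fun x => tsys_m δ (γ e) x) x = tsys_m δ (vl γ T) x := by
  rw [Finset.sum_apply]
  unfold tsys_m vl
  rw [← Int.cast_sum, Finset.sum_comm]
  congr 1
  refine Finset.sum_congr rfl fun f _ => ?_
  rw [Finsupp.finsetSum_apply]

open Classical in
lemma tsys_par {inc : E → X → Prop} {δ : X → Finset E} (hδ : ∀ x e, inc e x ↔ e ∈ δ x)
    (g : E →₀ ℤ) (D : Finset E) (hg : ∀ f, g f = if f ∈ D then 1 else 0) (x : X) :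
    tsys_m δ g x = par inc D x := by
  unfold tsys_m par
  have h1 : ∑ f ∈ δ x, g f = (((δ x).filter (fun f => f ∈ D)).card : ℤ) := by
    rw [Finset.card_filter]
    push_cast
    exact Finset.sum_congr rfl fun f _ => hg f
  have h2 : (δ x).filter (fun f => f ∈ D) = D.filter (fun e => inc e x) := by
    ext f
    rw [Finset.mem_filter, Finset.mem_filter, hδ x f]
    exact and_comm
  rw [h1, h2]
  push_cast
  rfl

lemma tsys_pair {u v u' v' : V} (h : ({u, v} : Finset V) = {u', v'}) : s(u, v) = s(u', v') := by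
  rw [Sym2.eq_iff]
  have h1 : u ∈ ({u', v'} : Finset V) := h ▸ (by simp)
  have h2 : v ∈ ({u', v'} : Finset V) := h ▸ (by simp)
  have h3 : u' ∈ ({u, v} : Finset V) := h ▸ (by simp)
  have h4 : v' ∈ ({u, v} : Finset V) := h ▸ (by simp)
  simp only [Finset.mem_insert, Finset.mem_singleton] at h1 h2 h3 h4
  rcases h1 with h1 | h1
  · subst h1
    rcases h2 with h2 | h2
    · subst h2
      rcases h4 with h4 | h4 <;> exact Or.inl ⟨rfl, h4.symm⟩
    · exact Or.inl ⟨rfl, h2⟩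
  · subst h1
    rcases h2 with h2 | h2
    · exact Or.inr ⟨rfl, h2⟩
    · subst h2
      rcases h3 with h3 | h3 <;> exact Or.inr ⟨rfl, h3.symm⟩

end

theorem st_TSYS (h : ST_POT) : ST_TSYS := by
  classical
  intro V _ _ E X G γ inc 𝒟 C hS hC
  choose δ _ hδ using hS.six
  have h2 : ∀ m : X → ZMod 2, m + m = 0 := fun m => funext fun x => CharTwo.add_self_eq_zero (m x)
  have hcyc : ∀ S T, Cyc G S T → S ⊆ C → ∑ e ∈ T, (fun x => tsys_m δ (γ e) x) = 0 := by
    intro S T hST hSC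
    funext x
    rw [tsys_sum]
    obtain ⟨h01, hev⟩ := hC.nowild S T hST hSC
    rw [tsys_par hδ (vl γ T) (vl γ T).support ?_ x]
    · exact hev x
    · intro f
      by_cases hf : f ∈ (vl γ T).support
      · rw [if_pos hf]
        rcases h01 f with h3 | h3
        · exact absurd h3 (Finsupp.mem_support_iff.1 hf)
        · exact h3
      · rw [if_neg hf]
        exact Finsupp.notMem_support_iff.1 hf
  obtain ⟨y, hy⟩ := h V G C hC.ctx.conn (X → ZMod 2) (fun e x => tsys_m δ (γ e) x) h2 hcyc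
  have hhp : ∀ A u v S T, HP G (FA G γ inc 𝒟) C A u v S T → ∀ x, tsys_m δ (vl γ T) x = y u x + y v x := by
    intro A u v S T hp x
    have h3 := hy u v S T hp.2.2.2.1 (hp.2.2.2.2.trans (tsys_sub hp.1))
    rw [← tsys_sum, h3]
    rfl
  refine ⟨y, ?_, ?_, ?_, ?_, ?_⟩
  · rintro D _ u v ⟨A, S, T, hp, hf⟩ hno
    refine ⟨A, S, T, hp, ?_⟩
    ext f
    rw [hf f, if_neg (fun hc => hno f hc.1 hc.2)]
    rfl
  · rintro D _ u v ⟨A, S, T, hp, hf⟩ hno
    refine ⟨A, S, T, hp, fun f => ?_⟩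
    rw [hf, if_neg (fun hc => hno f hc.1 hc.2)]
    rfl
  · rintro h h' f ⟨A, u, v, S, T, hp, rfl, hf⟩ ⟨A', u', v', S', T', hp', rfl, hf'⟩
    have hA := hC.disj _ _ _ _ _ _ _ _ _ _ hp hp' f hf hf'
    subst hA
    exact tsys_pair (hp.2.1.symm.trans hp'.2.1)
  · rintro u v ⟨A, S, T, hp, hf⟩
    funext x
    have h3 := hhp _ _ _ _ _ hp x
    rw [hf] at h3
    have h4 : tsys_m δ (0 : E →₀ ℤ) x = 0 := by
      unfold tsys_m
      simp
    rw [h4] at h3
    exact CharTwo.add_eq_zero.1 h3.symm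
  · rintro D _ u v ⟨A, S, T, hp, hf⟩ x
    rw [← hhp _ _ _ _ _ hp x]
    refine tsys_par hδ _ _ (fun f => ?_) x
    rw [hf f]
    simp only [Finset.mem_filter]

end ErdPos
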